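import Mathlib

set_option autoImplicit false

open MeasureTheory Set Finset
open scoped ENNReal NNReal

namespace Pool.Agent.H.MP_779522_an

noncomputable def Av {X : Type*} (T : Equiv.Perm X) (P : Polynomial ℤ) (f g : X → ℝ) (x : X)
    (N : ℝ) : ℝ :=
  (1 / (⌊N⌋₊ : ℝ)) * ∑ n ∈ Finset.Icc 1 ⌊N⌋₊, f ((T ^ n) x) * g ((T ^ P.eval (n : ℤ)) x)

noncomputable def Var (r : ℝ) (D : Set ℝ) (a : ℝ → ℝ) : ℝ≥0∞ :=
  (⨆ N ∈ D, ‖a N‖ₑ) + ⨆ (k : ℕ) (N : Fin (k + 1) → ℝ) (_ : StrictMono N) (_ : ∀ j, N j ∈ D),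
    (∑ j : Fin k, ‖a (N j.succ) - a (N j.castSucc)‖ₑ ^ r) ^ (1 / r)

def Lac (l : ℝ) (D : Set ℝ) : Prop := D ⊆ Ici 1 ∧ ∀ N ∈ D, ∀ N' ∈ D, N < N' → l * N ≤ N'

open Classical in
noncomputable def gg (K : ℕ) (y : ℤ) : ℝ :=
  if ∃ j : ℕ, Even j ∧ 2 * (K : ℤ) ^ (2 * j) ≤ y ∧ y < 2 * (K : ℤ) ^ (2 * j + 2) then 1 else 0

lemma gg_01 (K : ℕ) (y : ℤ) : 0 ≤ gg K y ∧ gg K y ≤ 1 := by
  unfold gg; split_ifs <;> norm_num

lemma gg_even {K j : ℕ} (hj : Even j) {y : ℤ} (h1 : 2 * (K : ℤ) ^ (2 * j) ≤ y)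
    (h2 : y < 2 * (K : ℤ) ^ (2 * j + 2)) : gg K y = 1 := if_pos ⟨j, hj, h1, h2⟩

lemma gg_odd {K j : ℕ} (hK : 1 ≤ K) (hj : ¬ Even j) {y : ℤ} (h1 : 2 * (K : ℤ) ^ (2 * j) ≤ y)
    (h2 : y < 2 * (K : ℤ) ^ (2 * j + 2)) : gg K y = 0 := by
  refine if_neg ?_
  rintro ⟨i, hi, h3, h4⟩
  have hK' : (1 : ℤ) ≤ K := by exact_mod_cast hK
  rcases lt_trichotomy i j with h | h | h
  · have := pow_le_pow_right₀ hK' (show 2 * i + 2 ≤ 2 * j by omega)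
    linarith
  · exact hj (h ▸ hi)
  · have := pow_le_pow_right₀ hK' (show 2 * j + 2 ≤ 2 * i by omega)
    linarith

lemma avg_bound {K j : ℕ} (hK : 8 ≤ K) (u : ℕ → ℝ) (c : ℝ) (hu : ∀ n, |u n - c| ≤ 1)
    (hc : ∀ n, 2 * K ^ j ≤ n → n ≤ K ^ (j + 1) → u n = c) :
    |(1 / ((K ^ (j + 1) : ℕ) : ℝ)) * ∑ n ∈ Finset.Icc 1 (K ^ (j + 1)), u n - c| ≤ 1 / 4 := by
  have hN : (0 : ℝ) < ((K ^ (j + 1) : ℕ) : ℝ) := by positivity
  have h1 : (1 / ((K ^ (j + 1) : ℕ) : ℝ)) * ∑ n ∈ Finset.Icc 1 (K ^ (j + 1)), u n - c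
      = (∑ n ∈ Finset.Icc 1 (K ^ (j + 1)), (u n - c)) / ((K ^ (j + 1) : ℕ) : ℝ) := by
    rw [Finset.sum_sub_distrib, Finset.sum_const, Nat.card_Icc, nsmul_eq_mul, add_tsub_cancel_right]
    field_simp
  rw [h1, abs_div, abs_of_pos hN, div_le_iff₀ hN]
  have h2 : ∑ n ∈ Finset.Icc 1 (K ^ (j + 1)), (u n - c)
      = ∑ n ∈ (Finset.Icc 1 (K ^ (j + 1))).filter (· < 2 * K ^ j), (u n - c) := by
    rw [Finset.sum_filter]
    refine Finset.sum_congr rfl fun n hn => ?_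
    split_ifs with h
    · rfl
    · rw [hc n (not_lt.1 h) (Finset.mem_Icc.1 hn).2, sub_self]
  rw [h2]
  refine (Finset.abs_sum_le_sum_abs _ _).trans ((Finset.sum_le_card_nsmul _ _ 1
    fun n _ => hu n).trans ?_)
  have h3 : ((Finset.Icc 1 (K ^ (j + 1))).filter (· < 2 * K ^ j)).card ≤ 2 * K ^ j := by
    calc _ ≤ (Finset.range (2 * K ^ j)).card := Finset.card_le_card fun n hn =>
          Finset.mem_range.2 (Finset.mem_filter.1 hn).2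
      _ = _ := Finset.card_range _
  have h4 : (8 : ℝ) ≤ K := by exact_mod_cast hK
  have h5 : (((Finset.Icc 1 (K ^ (j + 1))).filter (· < 2 * K ^ j)).card : ℝ) ≤ 2 * (K : ℝ) ^ j := by
    exact_mod_cast h3
  rw [nsmul_eq_mul, mul_one]
  refine h5.trans ?_
  push_cast
  rw [pow_succ]
  have : (0 : ℝ) < (K : ℝ) ^ j := by positivity
  nlinarith

noncomputable def ff (M : ℕ) : ℤ → ℝ := (Set.Ico (0 : ℤ) (2 * M)).indicator 1

lemma Av_bound {K m j : ℕ} (hK : 8 ≤ K) (h1 : m ≤ j + 1) (h2 : j + 1 ≤ 2 * m) {x : ℤ} (hx0 : 0 ≤ x)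
    (hx : x < (K ^ (2 * m) : ℕ)) :
    |Av (Equiv.addRight 1) (Polynomial.X ^ 2) (ff (K ^ (2 * m))) (gg K) x ((K : ℝ) ^ (j + 1))
      - (if Even j then 1 else 0)| ≤ 1 / 4 := by
  have hfl : ⌊(K : ℝ) ^ (j + 1)⌋₊ = K ^ (j + 1) := by
    rw [← Nat.cast_pow, Nat.floor_natCast]
  have hK1 : 1 ≤ K := by omega
  have hKz : (1 : ℤ) ≤ K := by exact_mod_cast hK1
  unfold Av
  rw [hfl]
  have hsum : ∑ n ∈ Finset.Icc 1 (K ^ (j + 1)), ff (K ^ (2 * m)) ((Equiv.addRight (1 : ℤ) ^ n) x)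
      * gg K ((Equiv.addRight (1 : ℤ) ^ (Polynomial.X ^ 2 : Polynomial ℤ).eval (n : ℤ)) x)
      = ∑ n ∈ Finset.Icc 1 (K ^ (j + 1)), gg K (x + (n : ℤ) ^ 2) := by
    refine Finset.sum_congr rfl fun n hn => ?_
    have hn2 : n ≤ K ^ (2 * m) := (Finset.mem_Icc.1 hn).2.trans (Nat.pow_le_pow_right hK1 h2)
    have hn3 : (n : ℤ) ≤ (K ^ (2 * m) : ℕ) := by exact_mod_cast hn2
    have : ff (K ^ (2 * m)) (x + n) = 1 := by
      unfold ff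
      rw [indicator_of_mem (by constructor <;> omega)]; rfl
    simp [this]
  rw [hsum]
  refine avg_bound hK (fun n => gg K (x + (n : ℤ) ^ 2)) _ (fun n => ?_) fun n hn1 hn2 => ?_
  · have := gg_01 K (x + (n : ℤ) ^ 2)
    split_ifs <;> rw [abs_le] <;> constructor <;> linarith [this.1, this.2]
  · have a1 : 2 * (K : ℤ) ^ j ≤ n := by exact_mod_cast hn1
    have a2 : (n : ℤ) ≤ (K : ℤ) ^ (j + 1) := by exact_mod_cast hn2
    have a3 : (0 : ℤ) ≤ (K : ℤ) ^ j := by positivity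
    have b1 : 2 * (K : ℤ) ^ (2 * j) ≤ x + (n : ℤ) ^ 2 := by
      rw [pow_mul']; nlinarith
    have b2 : x + (n : ℤ) ^ 2 < 2 * (K : ℤ) ^ (2 * j + 2) := by
      have c1 : (n : ℤ) ^ 2 ≤ ((K : ℤ) ^ (j + 1)) ^ 2 := by gcongr
      have c2 : (K : ℤ) ^ (2 * m) ≤ (K : ℤ) ^ (2 * j + 2) := pow_le_pow_right₀ hKz (by omega)
      rw [← pow_mul, show (j + 1) * 2 = 2 * j + 2 by ring] at c1
      push_cast at hx
      linarith
    split_ifs with h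
    · exact gg_even h b1 b2
    · exact gg_odd hK1 h b1 b2

lemma Var_ge {K m : ℕ} (hK : 8 ≤ K) (hm : 1 ≤ m) {r : ℝ} (hr : 0 < r) {x : ℤ} (hx0 : 0 ≤ x)
    (hx : x < (K ^ (2 * m) : ℕ)) :
    (m : ℝ≥0∞) ^ (1 / r) * 2⁻¹ ≤ Var r (Set.range fun j : ℕ => (K : ℝ) ^ j)
      (Av (Equiv.addRight 1) (Polynomial.X ^ 2) (ff (K ^ (2 * m))) (gg K) x) := by
  have hK1 : (1 : ℝ) < K := by exact_mod_cast (by omega : 1 < K)
  refine le_add_left (le_iSup₂_of_le m (fun i : Fin (m + 1) => (K : ℝ) ^ (m - 1 + i + 1))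
    (le_iSup₂_of_le (fun i j hij => pow_lt_pow_right₀ hK1 (by
      have : (i : ℕ) < j := hij
      omega)) (fun i => ⟨_, rfl⟩) ?_))
  have h1 : (m : ℝ≥0∞) ^ (1 / r) * 2⁻¹ = (∑ _j : Fin m, (2⁻¹ : ℝ≥0∞) ^ r) ^ (1 / r) := by
    rw [Finset.sum_const, Finset.card_univ, Fintype.card_fin, nsmul_eq_mul,
      ENNReal.mul_rpow_of_nonneg _ _ (by positivity), ← ENNReal.rpow_mul, mul_one_div_cancel hr.ne',
      ENNReal.rpow_one]
  rw [h1]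
  gcongr with j
  have hj := j.2
  have a1 := Av_bound (m := m) (j := m - 1 + j) hK (by omega) (by omega) hx0 hx
  have a2 := Av_bound (m := m) (j := m - 1 + (j + 1)) hK (by omega) (by omega) hx0 hx
  simp only [Fin.val_succ, Fin.val_castSucc]
  rw [Real.enorm_eq_ofReal_abs, show (2⁻¹ : ℝ≥0∞) = ENNReal.ofReal 2⁻¹ by
    rw [ENNReal.ofReal_inv_of_pos two_pos]; simp]
  apply ENNReal.ofReal_le_ofReal
  rw [show m - 1 + (j + 1) = m - 1 + j + 1 by ring] at a2 ⊢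
  simp only [Nat.even_add_one] at a2
  rw [abs_le] at a1 a2
  by_cases h : Even (m - 1 + j)
  · simp only [h, if_true, not_true, if_false] at a1 a2
    rw [le_abs]; right; linarith [a1.1, a2.2]
  · simp only [h, if_true, not_false_iff, if_false] at a1 a2
    rw [le_abs]; left; linarith [a1.2, a2.1]

theorem main (p r l : ℝ) (hp : 1 < p) (hr : 0 < r) :
    ¬ ∃ C : ℝ≥0, ∀ D, Lac l D → ∀ f g : ℤ → ℝ,
      MemLp f (ENNReal.ofReal p) Measure.count → MemLp g ∞ Measure.count →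
      (∫⁻ x, Var r D (Av (Equiv.addRight 1) (Polynomial.X ^ 2) f g x) ^ p ∂Measure.count) ^ (1 / p)
        ≤ C * eLpNorm f (ENNReal.ofReal p) Measure.count * eLpNorm g ∞ Measure.count := by
  rintro ⟨C, hC⟩
  obtain ⟨K, hK, hKl⟩ : ∃ K : ℕ, 8 ≤ K ∧ l ≤ K :=
    ⟨max 8 ⌈l⌉₊, le_max_left _ _, (Nat.le_ceil l).trans (by exact_mod_cast le_max_right _ _)⟩
  have hK1 : (1 : ℝ) < K := by exact_mod_cast (by omega : 1 < K)
  have hp0 : 0 < p := by linarith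
  obtain ⟨m, hm1, hm⟩ : ∃ m : ℕ, 1 ≤ m ∧ ((4 * C + 1 : ℝ≥0) : ℝ≥0∞) ≤ (m : ℝ≥0∞) ^ (1 / r) := by
    refine ⟨⌈(4 * C + 1) ^ r⌉₊ + 1, by omega, ?_⟩
    rw [one_div, ENNReal.le_rpow_inv_iff hr, ← ENNReal.coe_rpow_of_nonneg _ hr.le, ← ENNReal.coe_natCast,
      ENNReal.coe_le_coe]
    push_cast
    exact (Nat.le_ceil _).trans le_self_add
  have hlac : Lac l (Set.range fun j : ℕ => (K : ℝ) ^ j) := by
    constructor
    · rintro _ ⟨j, rfl⟩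
      exact one_le_pow₀ hK1.le
    · rintro _ ⟨i, rfl⟩ _ ⟨j, rfl⟩ hij
      have h : i < j := (pow_lt_pow_iff_right₀ hK1).1 hij
      calc l * (K : ℝ) ^ i ≤ K * K ^ i := by gcongr
        _ = K ^ (i + 1) := by ring
        _ ≤ _ := pow_le_pow_right₀ hK1.le h
  obtain ⟨M, hM⟩ : ∃ M : ℕ, M = K ^ (2 * m) := ⟨_, rfl⟩
  have hM0 : 0 < M := by rw [hM]; positivity
  have hcount : ∀ a : ℕ, Measure.count (Set.Ico (0 : ℤ) a) = a := by
    intro a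
    rw [← Finset.coe_Ico, Measure.count_apply_finset]
    simp
  have hf : eLpNorm (ff M) (ENNReal.ofReal p) Measure.count ≤ 2 * (M : ℝ≥0∞) ^ (1 / p) := by
    unfold ff
    have := eLpNorm_indicator_const (μ := Measure.count) (s := Set.Ico (0 : ℤ) (2 * M))
      (c := (1 : ℝ)) (p := ENNReal.ofReal p) measurableSet_Ico (by simpa using hp0) (by simp)
    have h2 := hcount (2 * M)
    push_cast at h2
    rw [h2, ENNReal.toReal_ofReal hp0.le, enorm_one, one_mul,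
      ENNReal.mul_rpow_of_nonneg _ _ (by positivity)] at this
    refine (le_of_eq this).trans ?_
    gcongr
    calc (2 : ℝ≥0∞) ^ (1 / p) ≤ 2 ^ (1 : ℝ) :=
          ENNReal.rpow_le_rpow_of_exponent_le one_le_two (by rw [div_le_one hp0]; exact hp.le)
      _ = 2 := ENNReal.rpow_one _
  have hfin : (M : ℝ≥0∞) ^ (1 / p) ≠ ⊤ := ENNReal.rpow_ne_top_of_nonneg (by positivity) (by simp)
  have hg : eLpNorm (gg K) ∞ Measure.count ≤ 1 := by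
    rw [eLpNorm_exponent_top]
    refine eLpNormEssSup_le_of_ae_enorm_bound (Filter.Eventually.of_forall fun y => ?_)
    rw [Real.enorm_eq_ofReal_abs, abs_of_nonneg (gg_01 K y).1]
    exact ENNReal.ofReal_le_one.2 (gg_01 K y).2
  have key := hC _ hlac (ff M) (gg K)
    ⟨(measurable_of_countable _).aestronglyMeasurable, hf.trans_lt (by finiteness)⟩
    ⟨(measurable_of_countable _).aestronglyMeasurable, hg.trans_lt (by simp)⟩
  have hlow : (m : ℝ≥0∞) ^ (1 / r) * 2⁻¹ * (M : ℝ≥0∞) ^ (1 / p) ≤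
      (∫⁻ x, Var r (Set.range fun j : ℕ => (K : ℝ) ^ j)
        (Av (Equiv.addRight 1) (Polynomial.X ^ 2) (ff M) (gg K) x) ^ p ∂Measure.count) ^ (1 / p) := by
    have h1 : ((m : ℝ≥0∞) ^ (1 / r) * 2⁻¹) ^ p * M ≤ ∫⁻ x, Var r (Set.range fun j : ℕ => (K : ℝ) ^ j)
        (Av (Equiv.addRight 1) (Polynomial.X ^ 2) (ff M) (gg K) x) ^ p ∂Measure.count := by
      rw [← hcount M, ← setLIntegral_const]
      refine (setLIntegral_mono' measurableSet_Ico fun x hx => ?_).trans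
        (setLIntegral_le_lintegral _ _)
      rw [hM] at hx ⊢
      exact ENNReal.rpow_le_rpow (Var_ge hK hm1 hr hx.1 hx.2) hp0.le
    refine le_trans (le_of_eq ?_) (ENNReal.rpow_le_rpow h1 (by positivity))
    rw [ENNReal.mul_rpow_of_nonneg _ (M : ℝ≥0∞) (by positivity), ← ENNReal.rpow_mul,
      mul_one_div_cancel hp0.ne', ENNReal.rpow_one]
  have h2 : ((4 * C + 1 : ℝ≥0) : ℝ≥0∞) * 2⁻¹ * (M : ℝ≥0∞) ^ (1 / p)
      ≤ (C * 2) * (M : ℝ≥0∞) ^ (1 / p) := by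
    calc _ ≤ (m : ℝ≥0∞) ^ (1 / r) * 2⁻¹ * (M : ℝ≥0∞) ^ (1 / p) := by gcongr
      _ ≤ _ := hlow.trans key
      _ ≤ C * (2 * (M : ℝ≥0∞) ^ (1 / p)) * 1 := by gcongr
      _ = _ := by ring
  have hpos : (M : ℝ≥0∞) ^ (1 / p) ≠ 0 := by
    have : (0 : ℝ≥0∞) < M := by exact_mod_cast hM0
    exact (ENNReal.rpow_pos this (by simp)).ne'
  rw [ENNReal.mul_le_mul_iff_left hpos hfin] at h2
  have h3 : ((4 * C + 1) * 2⁻¹ : ℝ≥0) ≤ C * 2 := by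
    rw [← ENNReal.coe_le_coe]
    simpa using h2
  have h4 : ((4 * C + 1) * 2⁻¹ : ℝ) ≤ C * 2 := by exact_mod_cast h3
  linarith

end Pool.Agent.H.MP_779522_an
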